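import Pool.Agent.Helper44.HO.Def

/-!
# Hilbert functions of point sets and the closure count (row B of stage 4)
-/

set_option autoImplicit false
set_option linter.unusedSectionVars false

open scoped BigOperators
open Classical Module

namespace RMH

section cut

variable {ι : Type} [Fintype ι]

/-- multiplication by the indicator of `C` -/
noncomputable def mulC (C : Finset ι) : (ι → ZMod 2) →ₗ[ZMod 2] (ι → ZMod 2) where
  toFun f := fun i => if i ∈ C then f i else 0
  map_add' f g := by
    funext i
    show (if i ∈ C then f i + g i else 0) = (if i ∈ C then f i else 0) + (if i ∈ C then g i else 0)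
    split_ifs
    · rfl
    · rw [add_zero]
  map_smul' a f := by
    funext i
    show (if i ∈ C then a * f i else 0) = a * (if i ∈ C then f i else 0)
    split_ifs
    · rfl
    · rw [mul_zero]

lemma mulC_apply (C : Finset ι) (f : ι → ZMod 2) (i : ι) : mulC C f i = if i ∈ C then f i else 0 := rfl

lemma finrank_map_inj {A B : Type} [AddCommGroup A] [Module (ZMod 2) A] [AddCommGroup B] [Module (ZMod 2) B]
    (f : A →ₗ[ZMod 2] B) (hf : Function.Injective f) (M : Submodule (ZMod 2) A) :
    finrank (ZMod 2) ↥(M.map f) = finrank (ZMod 2) M :=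
  (Submodule.equivMapOfInjective f hf M).finrank_eq.symm

/-- the two restrictions have the same rank -/
lemma finrank_pull (M : Submodule (ZMod 2) (ι → ZMod 2)) (C : Finset ι) :
    finrank (ZMod 2) ↥(M.map (pull (fun i : C => (i : ι)))) = finrank (ZMod 2) ↥(M.map (mulC C)) := by
  have hinj : Function.Injective (fun i : C => (i : ι)) := Subtype.val_injective
  have h : ∀ f : ι → ZMod 2, mulC C f = (Function.ExtendByZero.linearMap (ZMod 2) (fun i : C => (i : ι)))
      (pull (fun i : C => (i : ι)) f) := by
    intro f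
    funext i
    rw [mulC_apply]
    show _ = Function.extend (fun i : C => (i : ι)) (pull (fun i : C => (i : ι)) f) 0 i
    by_cases hi : i ∈ C
    · rw [if_pos hi]
      exact (hinj.extend_apply (pull (fun i : C => (i : ι)) f) 0 ⟨i, hi⟩).symm
    · rw [if_neg hi, Function.extend_apply']
      · rfl
      · rintro ⟨j, rfl⟩
        exact hi j.2
  have h1 : M.map (mulC C) = (M.map (pull (fun i : C => (i : ι)))).map
      (Function.ExtendByZero.linearMap (ZMod 2) (fun i : C => (i : ι))) := by
    rw [← Submodule.map_comp]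
    congr 1
    apply LinearMap.ext
    exact h
  rw [h1]
  refine (finrank_map_inj _ ?_ _).symm
  exact Function.extend_injective hinj 0

/-- rank-nullity for the cut `C₀ ⊆ C` -/
lemma finrank_cut (M N : Submodule (ZMod 2) (ι → ZMod 2)) (C C₀ C₁ : Finset ι) (l : ι → ZMod 2)
    (h0 : ∀ i ∈ C₀, i ∈ C) (h1 : ∀ i, i ∈ C₁ ↔ i ∈ C ∧ i ∉ C₀) (hl0 : ∀ i ∈ C₀, l i = 0)
    (hl1 : ∀ i ∈ C₁, l i = 1) (hN : ∀ p ∈ N, l * p ∈ M) :
    finrank (ZMod 2) ↥(M.map (mulC C₀)) + finrank (ZMod 2) ↥(N.map (mulC C₁))
      ≤ finrank (ZMod 2) ↥(M.map (mulC C)) := by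
  set A := M.map (mulC C) with hA
  have e1 : M.map (mulC C₀) = A.map (mulC C₀) := by
    rw [hA, ← Submodule.map_comp]
    congr 1
    apply LinearMap.ext
    intro f
    funext i
    show (if i ∈ C₀ then f i else 0) = (if i ∈ C₀ then (if i ∈ C then f i else 0) else 0)
    by_cases hi : i ∈ C₀
    · rw [if_pos hi, if_pos hi, if_pos (h0 i hi)]
    · rw [if_neg hi, if_neg hi]
  have e2 : N.map (mulC C₁) ≤ (LinearMap.ker ((mulC C₀).domRestrict A)).map A.subtype := by
    rintro _ ⟨p, hp, rfl⟩
    have hq : mulC C₁ p = mulC C (l * p) := by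
      funext i
      rw [mulC_apply, mulC_apply, Pi.mul_apply]
      by_cases hi : i ∈ C₁
      · rw [if_pos hi, if_pos ((h1 i).1 hi).1, hl1 i hi, one_mul]
      · rw [if_neg hi]
        by_cases hi2 : i ∈ C
        · have hi0 : i ∈ C₀ := by
            by_contra hcon
            exact hi ((h1 i).2 ⟨hi2, hcon⟩)
          rw [if_pos hi2, hl0 i hi0, zero_mul]
        · rw [if_neg hi2]
    refine ⟨⟨mulC C₁ p, ?_⟩, ?_, rfl⟩
    · rw [hq]
      exact Submodule.mem_map_of_mem (hN p hp)
    · rw [SetLike.mem_coe, LinearMap.mem_ker, LinearMap.domRestrict_apply]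
      funext i
      show (if i ∈ C₀ then (if i ∈ C₁ then p i else 0) else 0) = 0
      by_cases hi : i ∈ C₀
      · rw [if_pos hi, if_neg (fun h => ((h1 i).1 h).2 hi)]
      · rw [if_neg hi]
  have e3 : finrank (ZMod 2) ↥(N.map (mulC C₁)) ≤ finrank (ZMod 2) ↥(LinearMap.ker ((mulC C₀).domRestrict A)) := by
    refine (Submodule.finrank_mono e2).trans (le_of_eq ?_)
    exact finrank_map_inj _ (Submodule.injective_subtype A) _
  have e4 := LinearMap.finrank_range_add_finrank_ker ((mulC C₀).domRestrict A)
  rw [LinearMap.range_domRestrict] at e4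
  rw [e1]
  omega

/-- there is a cut with both sides of size at least `n/4` -/
lemma exists_cut (L : Submodule (ZMod 2) (ι → ZMod 2)) (hone : (1 : ι → ZMod 2) ∈ L)
    (hsep : ∀ i j, i ≠ j → ∃ l ∈ L, l i ≠ l j) (C : Finset ι) (hC : 2 ≤ C.card) :
    ∃ l ∈ L, C.card ≤ 2 * (C.filter (fun i => l i = 0)).card ∧
      C.card ≤ 4 * (C.filter (fun i => l i = 1)).card := by
  -- number of separating `l`
  have hz : ∀ a : ZMod 2, a = 0 ∨ a = 1 := by decide
  have hsepc : ∀ i j, i ≠ j →
      2 * (Finset.univ.filter (fun l : L => (l : ι → ZMod 2) i ≠ (l : ι → ZMod 2) j)).card = Fintype.card L := by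
    intro i j hij
    obtain ⟨m, hm, hmij⟩ := hsep i j hij
    have h1 : (Finset.univ.filter (fun l : L => (l : ι → ZMod 2) i ≠ (l : ι → ZMod 2) j)).card =
        (Finset.univ.filter (fun l : L => ¬ ((l : ι → ZMod 2) i ≠ (l : ι → ZMod 2) j))).card := by
      refine Finset.card_bij (fun l _ => l + ⟨m, hm⟩) ?_ ?_ ?_
      · intro l hl
        rw [Finset.mem_filter] at hl ⊢
        refine ⟨Finset.mem_univ _, ?_⟩
        have h2 := hl.2
        show ¬ ((l : ι → ZMod 2) i + m i ≠ (l : ι → ZMod 2) j + m j)
        have : ∀ a b c d : ZMod 2, a ≠ b → c ≠ d → ¬ (a + c ≠ b + d) := by decide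
        exact this _ _ _ _ h2 hmij
      · intro l _ l' _ h
        exact add_right_cancel h
      · intro l hl
        rw [Finset.mem_filter] at hl
        refine ⟨l + ⟨m, hm⟩, ?_, ?_⟩
        · rw [Finset.mem_filter]
          refine ⟨Finset.mem_univ _, ?_⟩
          have h2 := hl.2
          show (l : ι → ZMod 2) i + m i ≠ (l : ι → ZMod 2) j + m j
          have : ∀ a b c d : ZMod 2, ¬ (a ≠ b) → c ≠ d → (a + c ≠ b + d) := by decide
          exact this _ _ _ _ h2 hmij
        · show l + ⟨m, hm⟩ + ⟨m, hm⟩ = l
          rw [add_assoc]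
          have : (⟨m, hm⟩ : L) + ⟨m, hm⟩ = 0 := by
            apply Subtype.ext
            funext k
            show m k + m k = 0
            exact CharTwo.add_self_eq_zero _
          rw [this, add_zero]
    have h3 := Finset.card_filter_add_card_filter_not (s := (Finset.univ : Finset L))
      (fun l : L => (l : ι → ZMod 2) i ≠ (l : ι → ZMod 2) j)
    rw [Finset.card_univ] at h3
    omega
  -- double counting
  set n := C.card with hn
  have hdc : ∑ l : L, 4 * ((C.filter (fun i => (l : ι → ZMod 2) i = 0)).card *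
      (C.filter (fun i => (l : ι → ZMod 2) i = 1)).card) = Fintype.card L * (n * n - n) := by
    have h1 : ∀ l : L, 2 * ((C.filter (fun i => (l : ι → ZMod 2) i = 0)).card *
        (C.filter (fun i => (l : ι → ZMod 2) i = 1)).card) =
        ∑ p ∈ C.offDiag, if (l : ι → ZMod 2) p.1 ≠ (l : ι → ZMod 2) p.2 then 1 else 0 := by
      intro l
      rw [← Finset.card_filter]
      have h2 : C.offDiag.filter (fun p => (l : ι → ZMod 2) p.1 ≠ (l : ι → ZMod 2) p.2) =
          (C.filter (fun i => (l : ι → ZMod 2) i = 0)) ×ˢ (C.filter (fun i => (l : ι → ZMod 2) i = 1)) ∪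
          (C.filter (fun i => (l : ι → ZMod 2) i = 1)) ×ˢ (C.filter (fun i => (l : ι → ZMod 2) i = 0)) := by
        ext p
        rw [Finset.mem_filter, Finset.mem_offDiag, Finset.mem_union, Finset.mem_product,
          Finset.mem_product, Finset.mem_filter, Finset.mem_filter, Finset.mem_filter, Finset.mem_filter]
        constructor
        · rintro ⟨⟨ha, hb, -⟩, hne⟩
          rcases hz ((l : ι → ZMod 2) p.1) with h1 | h1 <;> rcases hz ((l : ι → ZMod 2) p.2) with h2 | h2
          · exact absurd (h1.trans h2.symm) hne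
          · exact Or.inl ⟨⟨ha, h1⟩, ⟨hb, h2⟩⟩
          · exact Or.inr ⟨⟨ha, h1⟩, ⟨hb, h2⟩⟩
          · exact absurd (h1.trans h2.symm) hne
        · rintro (⟨⟨ha, h1⟩, ⟨hb, h2⟩⟩ | ⟨⟨ha, h1⟩, ⟨hb, h2⟩⟩)
          · refine ⟨⟨ha, hb, fun h => ?_⟩, ?_⟩
            · rw [h, h2] at h1
              exact absurd h1 (by decide)
            · rw [h1, h2]
              decide
          · refine ⟨⟨ha, hb, fun h => ?_⟩, ?_⟩
            · rw [h, h2] at h1
              exact absurd h1 (by decide)
            · rw [h1, h2]
              decide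
      rw [h2, Finset.card_union_of_disjoint, Finset.card_product, Finset.card_product]
      · ring
      · rw [Finset.disjoint_left]
        intro p hp hp'
        have h3 := (Finset.mem_filter.1 (Finset.mem_product.1 hp).1).2
        have h4 := (Finset.mem_filter.1 (Finset.mem_product.1 hp').1).2
        rw [h4] at h3
        exact absurd h3 (by decide)
    have h4 : ∑ l : L, 2 * ((C.filter (fun i => (l : ι → ZMod 2) i = 0)).card *
        (C.filter (fun i => (l : ι → ZMod 2) i = 1)).card) =
        ∑ p ∈ C.offDiag, (Finset.univ.filter (fun l : L => (l : ι → ZMod 2) p.1 ≠ (l : ι → ZMod 2) p.2)).card := by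
      rw [Finset.sum_congr rfl fun l _ => h1 l, Finset.sum_comm]
      refine Finset.sum_congr rfl fun p _ => ?_
      rw [Finset.card_filter]
    have h5 : 2 * ∑ p ∈ C.offDiag, (Finset.univ.filter (fun l : L => (l : ι → ZMod 2) p.1 ≠ (l : ι → ZMod 2) p.2)).card
        = (n * n - n) * Fintype.card L := by
      rw [Finset.mul_sum, Finset.sum_congr rfl (fun p hp => hsepc p.1 p.2 (Finset.mem_offDiag.1 hp).2.2),
        Finset.sum_const, Finset.offDiag_card, smul_eq_mul]
    rw [← h4, Finset.mul_sum] at h5
    rw [mul_comm, ← h5]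
    refine Finset.sum_congr rfl fun l _ => ?_
    ring
  obtain ⟨l, hl⟩ : ∃ l : L, n * n - n ≤ 4 * ((C.filter (fun i => (l : ι → ZMod 2) i = 0)).card *
      (C.filter (fun i => (l : ι → ZMod 2) i = 1)).card) := by
    by_contra hcon
    push Not at hcon
    have h1 := Finset.sum_lt_sum_of_nonempty (s := (Finset.univ : Finset L)) ⟨0, Finset.mem_univ _⟩
      (fun l _ => hcon l)
    rw [hdc, Finset.sum_const, Finset.card_univ, smul_eq_mul] at h1
    exact lt_irrefl _ h1
  have hsum : (C.filter (fun i => (l : ι → ZMod 2) i = 0)).card + (C.filter (fun i => (l : ι → ZMod 2) i = 1)).card = n := by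
    have h1 := Finset.card_filter_add_card_filter_not (s := C) (fun i => (l : ι → ZMod 2) i = 0)
    have h2 : C.filter (fun i => ¬ ((l : ι → ZMod 2) i = 0)) = C.filter (fun i => (l : ι → ZMod 2) i = 1) := by
      refine Finset.filter_congr fun i _ => ?_
      rcases hz ((l : ι → ZMod 2) i) with h | h
      · rw [h]
        decide
      · rw [h]
        decide
    rw [h2] at h1
    exact h1
  set x := (C.filter (fun i => (l : ι → ZMod 2) i = 0)).card with hx
  set y := (C.filter (fun i => (l : ι → ZMod 2) i = 1)).card with hy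
  -- both sides are at least `n/4`
  have key : ∀ a b : ℕ, a + b = n → n * n - n ≤ 4 * (a * b) → n ≤ 4 * b := by
    intro a b hab hle
    by_contra hcon
    push Not at hcon
    have h1 : n * n ≤ 4 * (a * b) + n := by omega
    have h2 : 4 * b + 1 ≤ n := hcon
    rw [← hab] at h1 h2 hC
    nlinarith
  rcases le_total (n) (2 * x) with hc | hc
  · refine ⟨l, l.2, hc, ?_⟩
    exact key x y hsum hl
  · refine ⟨l + 1, L.add_mem l.2 hone, ?_, ?_⟩
    · have h1 : C.filter (fun i => ((l : ι → ZMod 2) + 1) i = 0) = C.filter (fun i => (l : ι → ZMod 2) i = 1) := by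
        refine Finset.filter_congr fun i _ => ?_
        show (l : ι → ZMod 2) i + 1 = 0 ↔ _
        have : ∀ a : ZMod 2, a + 1 = 0 ↔ a = 1 := by decide
        exact this _
      rw [h1]
      omega
    · have h1 : C.filter (fun i => ((l : ι → ZMod 2) + 1) i = 1) = C.filter (fun i => (l : ι → ZMod 2) i = 0) := by
        refine Finset.filter_congr fun i _ => ?_
        show (l : ι → ZMod 2) i + 1 = 1 ↔ _
        have : ∀ a : ZMod 2, a + 1 = 1 ↔ a = 0 := by decide
        exact this _
      rw [h1]
      refine key y x (by omega) ?_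
      rw [mul_comm y x]
      exact hl

/-- **the Hilbert bound** -/
theorem hilbert (L : Submodule (ZMod 2) (ι → ZMod 2)) (hone : (1 : ι → ZMod 2) ∈ L)
    (hsep : ∀ i j, i ≠ j → ∃ l ∈ L, l i ≠ l j) (t : ℕ) :
    ∀ (a : ℕ) (C : Finset ι), 2 ^ a ≤ C.card →
      (a - t).choose t ≤ finrank (ZMod 2) ↥((L ^ t).map (mulC C)) := by
  induction t with
  | zero =>
    intro a C hC
    rw [Nat.choose_zero_right, pow_zero]
    obtain ⟨i, hi⟩ : C.Nonempty := by
      rw [← Finset.card_pos]
      exact lt_of_lt_of_le (by positivity) hC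
    have h1 : mulC C 1 ∈ (1 : Submodule (ZMod 2) (ι → ZMod 2)).map (mulC C) :=
      Submodule.mem_map_of_mem (Submodule.one_le.1 le_rfl)
    have h2 : mulC C (1 : ι → ZMod 2) ≠ 0 := by
      intro h
      have h3 := congrFun h i
      rw [mulC_apply, if_pos hi] at h3
      have h4 : (1 : ZMod 2) = 0 := h3
      exact absurd h4 (by decide)
    rw [Nat.one_le_iff_ne_zero]
    intro h
    rw [Submodule.finrank_eq_zero] at h
    rw [h] at h1
    exact h2 ((Submodule.mem_bot _).1 h1)
  | succ t iht =>
    intro a
    induction a using Nat.strong_induction_on with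
    | _ a iha =>
      intro C hC
      by_cases ha : a < 2 * (t + 1)
      · rw [Nat.choose_eq_zero_of_lt (by omega)]
        exact Nat.zero_le _
      push Not at ha
      have h4 : 2 ^ 2 ≤ 2 ^ a := Nat.pow_le_pow_right (by norm_num) (by omega)
      obtain ⟨l, hl, h0, h1⟩ := exists_cut L hone hsep C (by omega)
      have hz : ∀ a : ZMod 2, a = 0 ∨ a = 1 := by decide
      have hcut := finrank_cut (L ^ (t + 1)) (L ^ t) C (C.filter (fun i => l i = 0))
        (C.filter (fun i => l i = 1)) l (fun i hi => (Finset.mem_filter.1 hi).1) (by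
          intro i
          rw [Finset.mem_filter, Finset.mem_filter]
          constructor
          · rintro ⟨ha, hb⟩
            refine ⟨ha, fun h => ?_⟩
            rw [h.2] at hb
            exact absurd hb (by decide)
          · rintro ⟨ha, hb⟩
            refine ⟨ha, ?_⟩
            rcases hz (l i) with h | h
            · exact absurd ⟨ha, h⟩ hb
            · exact h)
        (fun i hi => (Finset.mem_filter.1 hi).2) (fun i hi => (Finset.mem_filter.1 hi).2)
        (fun p hp => by
          rw [pow_succ']
          exact Submodule.mul_mem_mul hl hp)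
      have e1 : 2 ^ (a - 1) ≤ (C.filter (fun i => l i = 0)).card := by
        have : 2 ^ a = 2 * 2 ^ (a - 1) := by
          rw [← pow_succ']
          congr 1
          omega
        omega
      have e2 : 2 ^ (a - 2) ≤ (C.filter (fun i => l i = 1)).card := by
        have : 2 ^ a = 4 * 2 ^ (a - 2) := by
          have : a = (a - 2) + 2 := by omega
          conv_lhs => rw [this]
          rw [pow_add]
          ring
        omega
      have h5 := iha (a - 1) (by omega) _ e1
      have h6 := iht (a - 2) _ e2
      refine le_trans ?_ hcut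
      refine le_trans (le_of_eq ?_) (Nat.add_le_add h5 h6)
      have e3 : a - (t + 1) = (a - t - 2) + 1 := by omega
      have e4 : a - 1 - (t + 1) = a - t - 2 := by omega
      have e5 : a - 2 - t = a - t - 2 := by omega
      rw [e3, e4, e5, Nat.choose_succ_succ, add_comm]

/-- an information set -/
lemma exists_info (A : Submodule (ZMod 2) (ι → ZMod 2)) :
    ∃ T : Finset ι, T.card ≤ finrank (ZMod 2) A ∧ ∀ f ∈ A, (∀ i ∈ T, f i = 0) → f = 0 := by
  induction hn : finrank (ZMod 2) A using Nat.strong_induction_on generalizing A with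
  | _ n ih =>
    by_cases hA : A = ⊥
    · refine ⟨∅, Nat.zero_le _, fun f hf _ => ?_⟩
      rw [hA] at hf
      exact (Submodule.mem_bot _).1 hf
    · obtain ⟨f, hf, hf0⟩ := Submodule.exists_mem_ne_zero_of_ne_bot hA
      obtain ⟨i, hi⟩ : ∃ i, f i ≠ 0 := by
        by_contra hcon
        push Not at hcon
        exact hf0 (funext hcon)
      set A' := A ⊓ LinearMap.ker (LinearMap.proj (R := ZMod 2) (φ := fun _ : ι => ZMod 2) i) with hA'
      have hlt : A' < A := by
        refine lt_of_le_of_ne inf_le_left fun h => ?_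
        rw [← h] at hf
        exact hi hf.2
      have h1 := Submodule.finrank_lt_finrank_of_lt hlt
      obtain ⟨T, hT, hT2⟩ := ih _ (hn ▸ h1) A' rfl
      refine ⟨insert i T, ?_, ?_⟩
      · refine (Finset.card_insert_le _ _).trans ?_
        omega
      · intro g hg hg2
        refine hT2 g ⟨hg, hg2 i (Finset.mem_insert_self _ _)⟩ fun j hj => hg2 j (Finset.mem_insert_of_mem hj)

end cut

section closure

variable {V : Type} [AddCommGroup V] [Module (ZMod 2) V] [Fintype V]

lemma one_mem_Aff : (1 : V → ZMod 2) ∈ Aff V :=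
  Submodule.subset_span (Set.mem_insert _ _)

lemma dual_mem_Aff (a : Module.Dual (ZMod 2) V) : (fun x => a x) ∈ Aff V :=
  Submodule.subset_span (Set.mem_insert_of_mem _ ⟨a, rfl⟩)

lemma Aff_sep (x y : V) (hxy : x ≠ y) : ∃ l ∈ Aff V, l x ≠ l y := by
  obtain ⟨a, ha⟩ := Module.Projective.exists_dual_ne_zero (ZMod 2) (sub_ne_zero.2 hxy)
  refine ⟨fun x => a x, dual_mem_Aff a, fun h => ha ?_⟩
  rw [map_sub]
  exact sub_eq_zero.2 h

/-- closure of a set of points with respect to functions of degree `≤ t` -/
noncomputable def cl (t : ℕ) (S : Set V) : Finset V :=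
  Finset.univ.filter (fun v => ∀ p ∈ PP V t, (∀ s ∈ S, p s = 0) → p v = 0)

lemma mem_cl {t : ℕ} {S : Set V} {v : V} :
    v ∈ cl t S ↔ ∀ p ∈ PP V t, (∀ s ∈ S, p s = 0) → p v = 0 := by
  unfold cl
  rw [Finset.mem_filter]
  exact ⟨fun h => h.2, fun h => ⟨Finset.mem_univ _, h⟩⟩

/-- small sets have small closure -/
lemma card_cl (t a : ℕ) (S : Finset V) (hS : S.card < (a - t).choose t) :
    (cl t (S : Set V)).card < 2 ^ a := by
  by_contra hcon
  push Not at hcon
  have h1 := hilbert (Aff V) one_mem_Aff (fun i j hij => Aff_sep i j hij) t a (cl t (S : Set V)) hcon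
  -- the rank on the closure is at most the rank on `S`
  set A := (Aff V ^ t).map (mulC (cl t (S : Set V))) with hA
  have h2 : finrank (ZMod 2) A ≤ finrank (ZMod 2) (S → ZMod 2) := by
    refine LinearMap.finrank_le_finrank_of_injective (f := (pull (fun i : S => (i : V))).domRestrict A) ?_
    rw [← LinearMap.ker_eq_bot, LinearMap.ker_eq_bot']
    rintro ⟨_, p, hp, rfl⟩ hz
    apply Subtype.ext
    funext v
    show (if v ∈ cl t (S : Set V) then p v else 0) = 0
    split_ifs with hv
    · refine mem_cl.1 hv p hp fun s hs => ?_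
      have h3 := congrFun hz ⟨s, hs⟩
      have h4 : (if s ∈ cl t (S : Set V) then p s else 0) = 0 := h3
      rw [if_pos] at h4
      · exact h4
      · exact mem_cl.2 fun p _ h => h s hs
    · rfl
  rw [Module.finrank_fintype_fun_eq_card, Fintype.card_coe] at h2
  omega

/-- (B) closure count -/
theorem closure_count {ι V : Type} [Fintype ι] [AddCommGroup V] [Module (ZMod 2) V] [Fintype V]
    (t a d : ℕ) (ha : Fintype.card ι < (a - t).choose t) :
    ((Finset.univ.filter (fun y : ι → V => finrank (ZMod 2) ↥((PP V t).map (pull y)) ≤ d)).card)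
      ≤ 2 ^ Fintype.card ι * Fintype.card V ^ d * 2 ^ (a * Fintype.card ι) := by
  -- the families of given information set
  have hsub : Finset.univ.filter (fun y : ι → V => finrank (ZMod 2) ↥((PP V t).map (pull y)) ≤ d) ⊆
      ((Finset.univ : Finset (Finset ι)).filter (fun T => T.card ≤ d)).biUnion
        (fun T => Finset.univ.filter (fun y : ι → V => ∀ i, y i ∈ cl t (y '' T))) := by
    intro y hy
    have hy2 := (Finset.mem_filter.1 hy).2
    obtain ⟨T, hT, hT2⟩ := exists_info ((PP V t).map (pull y))
    rw [Finset.mem_biUnion]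
    refine ⟨T, Finset.mem_filter.2 ⟨Finset.mem_univ _, hT.trans hy2⟩,
      Finset.mem_filter.2 ⟨Finset.mem_univ _, fun i => mem_cl.2 fun p hp hz => ?_⟩⟩
    have h1 := hT2 (pull y p) (Submodule.mem_map_of_mem hp) (fun j hj => hz _ ⟨j, hj, rfl⟩)
    exact congrFun h1 i
  have hV : 1 ≤ Fintype.card V := Fintype.card_pos
  have hone : ∀ T ∈ ((Finset.univ : Finset (Finset ι)).filter (fun T => T.card ≤ d)),
      (Finset.univ.filter (fun y : ι → V => ∀ i, y i ∈ cl t (y '' T))).card
        ≤ Fintype.card V ^ d * 2 ^ (a * Fintype.card ι) := by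
    intro T hT
    have hTd := (Finset.mem_filter.1 hT).2
    have h1 := Finset.card_le_mul_card_image (f := fun (y : ι → V) (i : T) => y i)
      (Finset.univ.filter (fun y : ι → V => ∀ i, y i ∈ cl t (y '' T))) (2 ^ (a * Fintype.card ι)) (by
        intro z _
        have h2 : ((Finset.univ.filter (fun y : ι → V => ∀ i, y i ∈ cl t (y '' T))).filter
            (fun y => (fun (i : T) => y i) = z)) ⊆
            Fintype.piFinset (fun _ : ι => cl t (((Finset.univ : Finset T).image z : Finset V) : Set V)) := by
          intro y hy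
          obtain ⟨hy1, hy2⟩ := Finset.mem_filter.1 hy
          have hy3 := (Finset.mem_filter.1 hy1).2
          rw [Fintype.mem_piFinset]
          intro i
          have h3 : y '' T = (((Finset.univ : Finset T).image z : Finset V) : Set V) := by
            rw [← hy2]
            ext v
            simp
          rw [← h3]
          exact hy3 i
        refine (Finset.card_le_card h2).trans ?_
        rw [Fintype.card_piFinset, Finset.prod_const, Finset.card_univ, pow_mul]
        refine Nat.pow_le_pow_left (card_cl t a _ ?_).le _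
        refine lt_of_le_of_lt (Finset.card_image_le.trans ?_) ha
        rw [Finset.card_univ, Fintype.card_coe]
        exact Finset.card_le_univ T)
    refine h1.trans ?_
    rw [mul_comm]
    refine Nat.mul_le_mul_right _ ?_
    refine (Finset.card_le_univ _).trans ?_
    rw [Fintype.card_fun, Fintype.card_coe]
    exact Nat.pow_le_pow_right hV hTd
  refine (Finset.card_le_card hsub).trans (Finset.card_biUnion_le.trans ((Finset.sum_le_sum hone).trans ?_))
  rw [Finset.sum_const, smul_eq_mul, mul_assoc]
  refine Nat.mul_le_mul_right _ ?_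
  refine (Finset.card_le_univ _).trans (le_of_eq ?_)
  rw [Fintype.card_finset]

end closure

end RMH
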