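import Pool.Agent.Helper44.HO.Def

/-!
# Moments over a linear code of functions (row D of stage 4)
-/

set_option autoImplicit false
set_option linter.unusedSectionVars false

open scoped BigOperators
open Classical Module

namespace RMH

/-- the coefficients of the powers of a sum of signs -/
noncomputable def cc (N : ℝ) : ℕ → ℕ → ℝ
  | 0, w => if w = 0 then 1 else 0
  | n + 1, w => w * cc N n (w - 1) + (N - w) * cc N n (w + 1)

lemma cc_zero (N : ℝ) : ∀ n w : ℕ, (∀ k, w + 2 * k ≠ n) → cc N n w = 0 := by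
  intro n
  induction n with
  | zero =>
    intro w h
    have hw : w ≠ 0 := fun hw => h 0 (by omega)
    show (if w = 0 then (1 : ℝ) else 0) = 0
    rw [if_neg hw]
  | succ n ih =>
    intro w h
    show w * cc N n (w - 1) + (N - w) * cc N n (w + 1) = 0
    rw [ih (w + 1) (fun k hk => h (k + 1) (by omega)), mul_zero, add_zero]
    rcases Nat.eq_zero_or_pos w with rfl | hw
    · rw [Nat.cast_zero, zero_mul]
    · rw [ih (w - 1) (fun k hk => h k (by omega)), mul_zero]

/-- the bounds for the coefficients -/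
lemma cc_bound (N : ℝ) (s : ℕ) (hN : (2 * s : ℝ) ≤ N) : ∀ n w k : ℕ, w + 2 * k = n → n ≤ 2 * s →
    (n.factorial : ℝ) / (2 ^ k * k.factorial) * (N - 2 * s) ^ k ≤ cc N n w ∧
    cc N n w ≤ (n.factorial : ℝ) / (2 ^ k * k.factorial) * N ^ k := by
  intro n
  induction n with
  | zero =>
    intro w k h _
    have hw : w = 0 := by omega
    have hk : k = 0 := by omega
    subst hw
    subst hk
    show _ ≤ (if 0 = 0 then (1 : ℝ) else 0) ∧ (if 0 = 0 then (1 : ℝ) else 0) ≤ _
    rw [if_pos rfl]
    simp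
  | succ n ih =>
    intro w k h hn
    have hcc : cc N (n + 1) w = w * cc N n (w - 1) + (N - w) * cc N n (w + 1) := rfl
    have hwR : (w : ℝ) ≤ 2 * s := by
      have : w ≤ 2 * s := by omega
      exact_mod_cast this
    have hNw : 0 ≤ N - w := by linarith
    have hN2 : 0 ≤ N - 2 * s := by linarith
    have hw0 : (0 : ℝ) ≤ w := Nat.cast_nonneg _
    have hsum : ((n + 1 : ℕ) : ℝ) = w + 2 * k := by
      rw [← h]
      push_cast
      ring
    have hfac : ((n + 1).factorial : ℝ) = (w + 2 * k) * n.factorial := by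
      rw [Nat.factorial_succ, Nat.cast_mul, hsum]
    -- first term
    have h1 : (w : ℝ) * ((n.factorial : ℝ) / (2 ^ k * k.factorial) * (N - 2 * s) ^ k) ≤ w * cc N n (w - 1) ∧
        w * cc N n (w - 1) ≤ w * ((n.factorial : ℝ) / (2 ^ k * k.factorial) * N ^ k) := by
      rcases Nat.eq_zero_or_pos w with rfl | hw
      · rw [Nat.cast_zero, zero_mul, zero_mul, zero_mul]
        exact ⟨le_rfl, le_rfl⟩
      · obtain ⟨ha, hb⟩ := ih (w - 1) k (by omega) (by omega)
        exact ⟨mul_le_mul_of_nonneg_left ha hw0, mul_le_mul_of_nonneg_left hb hw0⟩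
    -- second term
    have h2 : (2 * k : ℝ) * ((n.factorial : ℝ) / (2 ^ k * k.factorial) * (N - 2 * s) ^ k)
          ≤ (N - w) * cc N n (w + 1) ∧
        (N - w) * cc N n (w + 1) ≤ (2 * k : ℝ) * ((n.factorial : ℝ) / (2 ^ k * k.factorial) * N ^ k) := by
      rcases Nat.eq_zero_or_pos k with rfl | hk
      · rw [cc_zero N n (w + 1) (fun j hj => by omega)]
        simp
      · obtain ⟨j, rfl⟩ := Nat.exists_eq_add_of_le' hk
        obtain ⟨ha, hb⟩ := ih (w + 1) j (by omega) (by omega)
        have e1 : ∀ x : ℝ, (2 * ((j + 1 : ℕ) : ℝ)) * ((n.factorial : ℝ) / (2 ^ (j + 1) * (j + 1).factorial) * x ^ (j + 1))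
            = x * ((n.factorial : ℝ) / (2 ^ j * j.factorial) * x ^ j) := by
          intro x
          have hj : ((j + 1 : ℕ) : ℝ) ≠ 0 := Nat.cast_ne_zero.2 (Nat.succ_ne_zero j)
          have hf : (j.factorial : ℝ) ≠ 0 := Nat.cast_ne_zero.2 (Nat.factorial_ne_zero j)
          rw [Nat.factorial_succ, Nat.cast_mul, pow_succ, pow_succ]
          field_simp
        rw [e1, e1]
        have hpos : 0 ≤ (n.factorial : ℝ) / (2 ^ j * j.factorial) := by positivity
        constructor
        · refine le_trans ?_ (mul_le_mul_of_nonneg_left ha hNw)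
          exact mul_le_mul_of_nonneg_right (by linarith) (mul_nonneg hpos (pow_nonneg hN2 _))
        · refine (mul_le_mul_of_nonneg_left hb hNw).trans ?_
          exact mul_le_mul_of_nonneg_right (by linarith) (mul_nonneg hpos (pow_nonneg (by linarith) _))
    rw [hcc, hfac]
    constructor
    · refine le_trans (le_of_eq ?_) (add_le_add h1.1 h2.1)
      ring
    · refine (add_le_add h1.2 h2.2).trans (le_of_eq ?_)
      ring

variable {V : Type} [Fintype V]

/-- the powers of a sum of signs -/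
lemma pow_sum (G : V → ℝ) (hG : ∀ x, G x ^ 2 = 1) (n : ℕ) :
    (∑ x, G x) ^ n = ∑ Y : Finset V, cc (Fintype.card V) n Y.card * ∏ y ∈ Y, G y := by
  induction n with
  | zero =>
    rw [pow_zero, Finset.sum_eq_single ∅]
    · show 1 = (if (∅ : Finset V).card = 0 then (1 : ℝ) else 0) * ∏ y ∈ (∅ : Finset V), G y
      rw [Finset.card_empty, if_pos rfl, Finset.prod_empty, mul_one]
    · intro Y _ hY
      show (if Y.card = 0 then (1 : ℝ) else 0) * _ = 0
      rw [if_neg (fun h => hY (Finset.card_eq_zero.1 h)), zero_mul]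
    · intro h
      exact absurd (Finset.mem_univ _) h
  | succ n ih =>
    -- multiplication by `G x` is the symmetric difference with `x`
    have hmul : ∀ (x : V) (Y : Finset V), G x * ∏ y ∈ Y, G y = ∏ y ∈ symmDiff Y {x}, G y := by
      intro x Y
      by_cases hx : x ∈ Y
      · have h1 : symmDiff Y {x} = Y.erase x := by
          ext y
          rw [Finset.mem_symmDiff, Finset.mem_singleton, Finset.mem_erase]
          constructor
          · rintro (⟨h1, h2⟩ | ⟨h1, h2⟩)
            · exact ⟨h2, h1⟩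
            · exact absurd (h1 ▸ hx) h2
          · rintro ⟨h1, h2⟩
            exact Or.inl ⟨h2, h1⟩
        rw [h1, ← Finset.mul_prod_erase Y G hx, ← mul_assoc, ← pow_two, hG, one_mul]
      · have h1 : symmDiff Y {x} = insert x Y := by
          ext y
          rw [Finset.mem_symmDiff, Finset.mem_singleton, Finset.mem_insert]
          constructor
          · rintro (⟨h1, h2⟩ | ⟨h1, h2⟩)
            · exact Or.inr h1
            · exact Or.inl h1
          · rintro (h1 | h1)
            · exact Or.inr ⟨h1, h1 ▸ hx⟩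
            · exact Or.inl ⟨h1, fun h => hx (h ▸ h1)⟩
        rw [h1, Finset.prod_insert hx]
    have hinv : ∀ (x : V) (Y : Finset V), symmDiff (symmDiff Y {x}) {x} = Y := by
      intro x Y
      rw [symmDiff_assoc, symmDiff_self, symmDiff_bot]
    have hcard : ∀ Y : Finset V, ∑ x, cc (Fintype.card V) n (symmDiff Y {x}).card =
        cc (Fintype.card V) (n + 1) Y.card := by
      intro Y
      have h1 : ∀ x ∈ Y, cc (Fintype.card V) n (symmDiff Y {x}).card = cc (Fintype.card V) n (Y.card - 1) := by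
        intro x hx
        have h1 : symmDiff Y {x} = Y.erase x := by
          ext y
          rw [Finset.mem_symmDiff, Finset.mem_singleton, Finset.mem_erase]
          constructor
          · rintro (⟨h1, h2⟩ | ⟨h1, h2⟩)
            · exact ⟨h2, h1⟩
            · exact absurd (h1 ▸ hx) h2
          · rintro ⟨h1, h2⟩
            exact Or.inl ⟨h2, h1⟩
        rw [h1, Finset.card_erase_of_mem hx]
      have h2 : ∀ x ∈ Yᶜ, cc (Fintype.card V) n (symmDiff Y {x}).card = cc (Fintype.card V) n (Y.card + 1) := by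
        intro x hx
        have hx' : x ∉ Y := Finset.mem_compl.1 hx
        have h1 : symmDiff Y {x} = insert x Y := by
          ext y
          rw [Finset.mem_symmDiff, Finset.mem_singleton, Finset.mem_insert]
          constructor
          · rintro (⟨h1, h2⟩ | ⟨h1, h2⟩)
            · exact Or.inr h1
            · exact Or.inl h1
          · rintro (h1 | h1)
            · exact Or.inr ⟨h1, h1 ▸ hx'⟩
            · exact Or.inl ⟨h1, fun h => hx' (h ▸ h1)⟩
        rw [h1, Finset.card_insert_of_notMem hx']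
      rw [← Finset.sum_add_sum_compl Y, Finset.sum_congr rfl h1, Finset.sum_congr rfl h2,
        Finset.sum_const, Finset.sum_const, nsmul_eq_mul, nsmul_eq_mul, Finset.card_compl,
        Nat.cast_sub (Finset.card_le_univ Y)]
      rfl
    rw [pow_succ, ih, mul_comm, Finset.sum_mul]
    have h3 : ∀ x : V, G x * ∑ Y : Finset V, cc (Fintype.card V) n Y.card * ∏ y ∈ Y, G y =
        ∑ Y : Finset V, cc (Fintype.card V) n (symmDiff Y {x}).card * ∏ y ∈ Y, G y := by
      intro x
      rw [Finset.mul_sum]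
      refine Finset.sum_bij' (fun Y _ => symmDiff Y {x}) (fun Y _ => symmDiff Y {x})
        (fun _ _ => Finset.mem_univ _) (fun _ _ => Finset.mem_univ _)
        (fun Y _ => hinv x Y) (fun Y _ => hinv x Y) ?_
      intro Y _
      rw [hinv, ← hmul]
      ring
    rw [Finset.sum_congr rfl fun x _ => h3 x, Finset.sum_comm]
    refine Finset.sum_congr rfl fun Y _ => ?_
    rw [← Finset.sum_mul, hcard]

/-- the average over a linear code of functions -/
lemma avg_chi (W : Submodule (ZMod 2) (V → ZMod 2)) (Y : Finset V) :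
    ∑ q : W, ∏ y ∈ Y, RMC.chi ((q : V → ZMod 2) y) =
      if ∀ p ∈ W, ∑ y ∈ Y, p y = 0 then (Fintype.card W : ℝ) else 0 := by
  have h1 : ∀ q : W, ∏ y ∈ Y, RMC.chi ((q : V → ZMod 2) y) = RMC.chi (∑ y ∈ Y, (q : V → ZMod 2) y) :=
    fun q => (RMC.chi_sum Y _).symm
  rw [Finset.sum_congr rfl fun q _ => h1 q]
  split_ifs with h
  · rw [Finset.sum_congr rfl fun q _ => by rw [h q q.2, RMC.chi_zero], Finset.sum_const, nsmul_eq_mul,
      mul_one, Finset.card_univ]
  · push Not at h
    obtain ⟨p, hp, hp0⟩ := h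
    let φ : W →+ ZMod 2 :=
      { toFun := fun q => ∑ y ∈ Y, (q : V → ZMod 2) y
        map_zero' := by simp
        map_add' := fun a b => by
          rw [← Finset.sum_add_distrib]
          rfl }
    exact RMC.sum_chi_eq_zero φ ⟨⟨p, hp⟩, hp0⟩


lemma central_bound (s : ℕ) (hs : 6 ≤ s) :
    ((s : ℝ) / Real.exp 1) ^ s ≤ ((2 * s).factorial : ℝ) / (2 ^ s * s.factorial) / 4 := by
  have h1 : ((s : ℝ) / Real.exp 1) ^ s ≤ s.factorial := by
    have h2 := Real.pow_div_factorial_le_exp (s : ℝ) (Nat.cast_nonneg s) s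
    have h3 : Real.exp (s : ℝ) = Real.exp 1 ^ s := by
      rw [← Real.exp_nat_mul, mul_one]
    have hf : (0 : ℝ) < s.factorial := Nat.cast_pos.2 (Nat.factorial_pos s)
    have he : (0 : ℝ) < Real.exp 1 ^ s := pow_pos (Real.exp_pos 1) s
    rw [div_pow, div_le_iff₀ he]
    rw [div_le_iff₀ hf, h3] at h2
    linarith
  refine h1.trans ?_
  have h4 : 4 * 2 ^ s < Nat.centralBinom s := by
    have h5 := Nat.four_pow_lt_mul_centralBinom s (by omega)
    have h6 : ∀ n : ℕ, 4 ≤ n → 4 * n ≤ 2 ^ n := by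
      intro n hn
      induction n, hn using Nat.le_induction with
      | base => norm_num
      | succ n hn ih =>
        rw [pow_succ]
        omega
    have h7 := h6 s (by omega)
    have h8 : (4 : ℕ) ^ s = 2 ^ s * 2 ^ s := by
      rw [← mul_pow]
      norm_num
    rw [h8] at h5
    by_contra hcon
    push Not at hcon
    have h9 : s * Nat.centralBinom s ≤ s * (4 * 2 ^ s) := Nat.mul_le_mul_left _ hcon
    have h10 : s * (4 * 2 ^ s) ≤ 2 ^ s * 2 ^ s := by
      calc s * (4 * 2 ^ s) = (4 * s) * 2 ^ s := by ring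
        _ ≤ 2 ^ s * 2 ^ s := Nat.mul_le_mul_right _ h7
    omega
  have h5 : (2 * s).factorial = Nat.centralBinom s * s.factorial * s.factorial := by
    rw [Nat.centralBinom_eq_two_mul_choose]
    have := Nat.choose_mul_factorial_mul_factorial (n := 2 * s) (k := s) (by omega)
    rw [← this]
    have h6 : 2 * s - s = s := by omega
    rw [h6]
  have hf : (0 : ℝ) < s.factorial := Nat.cast_pos.2 (Nat.factorial_pos s)
  have h6 : (4 * 2 ^ s : ℝ) ≤ Nat.centralBinom s := by exact_mod_cast h4.le
  rw [h5, div_div, le_div_iff₀ (by positivity)]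
  push_cast
  nlinarith [mul_le_mul_of_nonneg_left h6 (mul_nonneg hf.le hf.le)]

/-- (D) moments -/
theorem exists_large_cor {V : Type} [Fintype V] (W : Submodule (ZMod 2) (V → ZMod 2))
    (F : V → ℝ) (hF : ∀ x, F x ^ 2 = 1) (s : ℕ) (hs : 6 ≤ s) (hN : 4 * s ^ 2 ≤ Fintype.card V)
    (hA : ∑ v ∈ Finset.Icc 1 s, (2 * s / Fintype.card V : ℝ) ^ v * (nullCard W (2 * v) : ℝ)
      ≤ 1 / 4) :
    ∃ q ∈ W, ((s : ℝ) / Real.exp 1) * Fintype.card V ≤ RMC.cor F q ^ 2 := by
  have hNR : (4 : ℝ) * s ^ 2 ≤ (Fintype.card V : ℝ) := by exact_mod_cast hN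
  set N : ℝ := (Fintype.card V : ℝ) with hNdef
  have hsR : (6 : ℝ) ≤ s := by exact_mod_cast hs
  have hN2 : (2 * s : ℝ) ≤ N := by nlinarith
  have hNpos : 0 < N := by nlinarith
  set D : ℝ := ((2 * s).factorial : ℝ) / (2 ^ s * s.factorial) with hD
  have hDpos : 0 < D := by
    have := Nat.factorial_pos (2 * s)
    have := Nat.factorial_pos s
    rw [hD]
    positivity
  -- the sum over null sets
  set T : ℝ := ∑ Y : Finset V, cc N (2 * s) Y.card *
    ((∏ y ∈ Y, F y) * if ∀ p ∈ W, ∑ y ∈ Y, p y = 0 then 1 else 0) with hT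
  have hE : ∑ q : W, RMC.cor F q ^ (2 * s) = Fintype.card W * T := by
    have h1 : ∀ q : W, RMC.cor F q ^ (2 * s) = ∑ Y : Finset V, cc N (2 * s) Y.card *
        ((∏ y ∈ Y, F y) * ∏ y ∈ Y, RMC.chi ((q : V → ZMod 2) y)) := by
      intro q
      have h2 := pow_sum (fun x => F x * RMC.chi ((q : V → ZMod 2) x)) (fun x => by
        rw [mul_pow, hF, pow_two, RMC.chi_sq, one_mul]) (2 * s)
      refine h2.trans (Finset.sum_congr rfl fun Y _ => ?_)
      rw [Finset.prod_mul_distrib]
    rw [Finset.sum_congr rfl fun q _ => h1 q, Finset.sum_comm, hT, Finset.mul_sum]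
    refine Finset.sum_congr rfl fun Y _ => ?_
    rw [← Finset.mul_sum, ← Finset.mul_sum, avg_chi]
    split_ifs
    · ring
    · ring
  have hcpos : ∀ v, v ≤ s → 0 ≤ cc N (2 * s) (2 * v) := by
    intro v hv
    have h1 := (cc_bound N s hN2 (2 * s) (2 * v) (s - v) (by omega) le_rfl).1
    refine le_trans ?_ h1
    have : 0 ≤ N - 2 * s := by linarith
    positivity
  have hFY : ∀ Y : Finset V, |∏ y ∈ Y, F y| = 1 := by
    intro Y
    rw [Finset.abs_prod]
    refine Finset.prod_eq_one fun y _ => ?_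
    have h1 : |F y| ^ 2 = 1 := by rw [sq_abs, hF]
    have h2 := abs_nonneg (F y)
    nlinarith
  -- lower bound for `T`
  have hTlow : cc N (2 * s) 0 - ∑ v ∈ Finset.Icc 1 s, cc N (2 * s) (2 * v) * (nullCard W (2 * v) : ℝ) ≤ T := by
    have h1 : T = cc N (2 * s) 0 + ∑ Y ∈ (Finset.univ : Finset (Finset V)).erase ∅, cc N (2 * s) Y.card *
        ((∏ y ∈ Y, F y) * if ∀ p ∈ W, ∑ y ∈ Y, p y = 0 then 1 else 0) := by
      rw [hT, ← Finset.add_sum_erase _ _ (Finset.mem_univ (∅ : Finset V))]
      congr 1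
      rw [Finset.card_empty, Finset.prod_empty, if_pos (fun p _ => Finset.sum_empty), mul_one, mul_one]
    have h2 : |∑ Y ∈ (Finset.univ : Finset (Finset V)).erase ∅, cc N (2 * s) Y.card *
        ((∏ y ∈ Y, F y) * if ∀ p ∈ W, ∑ y ∈ Y, p y = 0 then 1 else 0)| ≤
        ∑ v ∈ Finset.Icc 1 s, cc N (2 * s) (2 * v) * (nullCard W (2 * v) : ℝ) := by
      refine (Finset.abs_sum_le_sum_abs _ _).trans ?_
      have h3 : ∀ Y ∈ (Finset.univ : Finset (Finset V)).erase ∅, |cc N (2 * s) Y.card *
          ((∏ y ∈ Y, F y) * if ∀ p ∈ W, ∑ y ∈ Y, p y = 0 then 1 else 0)| ≤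
          ∑ v ∈ Finset.Icc 1 s, cc N (2 * s) (2 * v) *
            (if Y.card = 2 * v ∧ ∀ p ∈ W, ∑ y ∈ Y, p y = 0 then 1 else 0) := by
        intro Y hY
        have hY0 : Y ≠ ∅ := (Finset.mem_erase.1 hY).1
        have hnn : ∀ v ∈ Finset.Icc 1 s, 0 ≤ cc N (2 * s) (2 * v) *
            (if Y.card = 2 * v ∧ ∀ p ∈ W, ∑ y ∈ Y, p y = 0 then (1 : ℝ) else 0) := by
          intro v hv
          refine mul_nonneg (hcpos v (Finset.mem_Icc.1 hv).2) ?_
          split_ifs
          · exact zero_le_one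
          · exact le_rfl
        by_cases hnull : ∀ p ∈ W, ∑ y ∈ Y, p y = 0
        · by_cases hex : ∃ k, Y.card + 2 * k = 2 * s
          · obtain ⟨k, hk⟩ := hex
            have hYpos := Finset.card_pos.2 (Finset.nonempty_iff_ne_empty.2 hY0)
            have hv : Y.card = 2 * (s - k) := by omega
            have hmem : s - k ∈ Finset.Icc 1 s := Finset.mem_Icc.2 ⟨by omega, by omega⟩
            refine le_trans ?_ (Finset.single_le_sum hnn hmem)
            rw [if_pos hnull, if_pos ⟨hv, hnull⟩, abs_mul, mul_one, hFY, mul_one, mul_one, hv,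
              abs_of_nonneg (hcpos _ (by omega))]
          · push Not at hex
            rw [cc_zero N (2 * s) Y.card hex, zero_mul, abs_zero]
            exact Finset.sum_nonneg hnn
        · rw [if_neg hnull, mul_zero, mul_zero, abs_zero]
          exact Finset.sum_nonneg hnn
      refine (Finset.sum_le_sum h3).trans ?_
      rw [Finset.sum_comm]
      refine Finset.sum_le_sum fun v hv => ?_
      rw [← Finset.mul_sum]
      refine mul_le_mul_of_nonneg_left ?_ (hcpos v (Finset.mem_Icc.1 hv).2)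
      rw [Finset.sum_boole]
      refine Nat.cast_le.2 (Finset.card_le_card ?_)
      intro Y hY
      obtain ⟨-, h4, h5⟩ := Finset.mem_filter.1 hY
      refine Finset.mem_filter.2 ⟨?_, h5⟩
      rw [Finset.mem_powersetCard]
      exact ⟨Finset.subset_univ _, h4⟩
    rw [h1]
    have := neg_abs_le (∑ Y ∈ (Finset.univ : Finset (Finset V)).erase ∅, cc N (2 * s) Y.card *
        ((∏ y ∈ Y, F y) * if ∀ p ∈ W, ∑ y ∈ Y, p y = 0 then 1 else 0))
    linarith
  -- the main coefficient
  have hc0 : D * N ^ s / 2 ≤ cc N (2 * s) 0 := by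
    have h1 := (cc_bound N s hN2 (2 * s) 0 s (by omega) le_rfl).1
    refine le_trans ?_ h1
    have h2 : N ^ s / 2 ≤ (N - 2 * s) ^ s := by
      have h3 := one_add_mul_le_pow (a := -(2 * s / N)) (by
        have : 2 * s / N ≤ 1 := by rw [div_le_one hNpos]; exact hN2
        linarith) s
      have h4 : (N - 2 * s) ^ s = N ^ s * (1 + -(2 * s / N)) ^ s := by
        rw [← mul_pow]
        congr 1
        field_simp
        ring
      rw [h4]
      have h5 : (1 : ℝ) / 2 ≤ 1 + s * -(2 * s / N) := by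
        have h6 : s * (2 * s / N) ≤ 1 / 2 := by
          rw [mul_div_assoc', div_le_iff₀ hNpos]
          nlinarith
        linarith
      have h7 : 0 ≤ N ^ s := by positivity
      nlinarith [mul_le_mul_of_nonneg_left (h5.trans h3) h7]
    have h3 := mul_le_mul_of_nonneg_left h2 hDpos.le
    calc D * N ^ s / 2 = D * (N ^ s / 2) := by ring
      _ ≤ _ := h3
  have hcv : ∀ v ∈ Finset.Icc 1 s, cc N (2 * s) (2 * v) ≤ D * N ^ s * (2 * s / N) ^ v := by
    intro v hv
    obtain ⟨hv1, hv2⟩ := Finset.mem_Icc.1 hv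
    have h1 := (cc_bound N s hN2 (2 * s) (2 * v) (s - v) (by omega) le_rfl).2
    refine h1.trans ?_
    have h2 : (s.factorial : ℝ) = (s - v).factorial * s.descFactorial v := by
      rw [← Nat.cast_mul, Nat.factorial_mul_descFactorial hv2]
    have h3 : (s.descFactorial v : ℝ) ≤ s ^ v := by
      exact_mod_cast Nat.descFactorial_le_pow s v
    have hf1 : (0 : ℝ) < (s - v).factorial := Nat.cast_pos.2 (Nat.factorial_pos _)
    have hf2 : (0 : ℝ) < s.descFactorial v := by
      rw [Nat.cast_pos]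
      exact Nat.descFactorial_pos.2 hv2
    have e1 : N ^ s = N ^ (s - v) * N ^ v := by
      rw [← pow_add]
      congr 1
      omega
    have e2 : (2 : ℝ) ^ s = 2 ^ (s - v) * 2 ^ v := by
      rw [← pow_add]
      congr 1
      omega
    rw [hD, h2, e1, e2, div_pow, mul_pow]
    have h4 : (((2 * s).factorial : ℝ) / (2 ^ (s - v) * 2 ^ v * (((s - v).factorial : ℝ) * s.descFactorial v)) *
        (N ^ (s - v) * N ^ v) * (2 ^ v * s ^ v / N ^ v)) =
        ((2 * s).factorial : ℝ) / (2 ^ (s - v) * (s - v).factorial) * N ^ (s - v) *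
          (s ^ v / s.descFactorial v) := by
      field_simp
    rw [h4]
    refine le_mul_of_one_le_right (by positivity) ?_
    rw [one_le_div hf2]
    exact h3
  have hT2 : D * N ^ s / 4 ≤ T := by
    have h1 : ∑ v ∈ Finset.Icc 1 s, cc N (2 * s) (2 * v) * (nullCard W (2 * v) : ℝ) ≤ D * N ^ s / 4 := by
      calc ∑ v ∈ Finset.Icc 1 s, cc N (2 * s) (2 * v) * (nullCard W (2 * v) : ℝ)
          ≤ ∑ v ∈ Finset.Icc 1 s, (D * N ^ s) * ((2 * s / N) ^ v * (nullCard W (2 * v) : ℝ)) := by
            refine Finset.sum_le_sum fun v hv => ?_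
            rw [← mul_assoc]
            exact mul_le_mul_of_nonneg_right (hcv v hv) (Nat.cast_nonneg _)
        _ = (D * N ^ s) * ∑ v ∈ Finset.Icc 1 s, ((2 * s / N) ^ v * (nullCard W (2 * v) : ℝ)) := by
            rw [Finset.mul_sum]
        _ ≤ (D * N ^ s) * (1 / 4) := mul_le_mul_of_nonneg_left hA (by positivity)
        _ = D * N ^ s / 4 := by ring
    linarith
  -- conclusion
  by_contra hcon
  push Not at hcon
  set K : ℝ := (s : ℝ) / Real.exp 1 * N with hK
  have hKpos : 0 < K := by
    have := Real.exp_pos 1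
    rw [hK]
    positivity
  have hlt : ∑ q : W, RMC.cor F q ^ (2 * s) < ∑ _q : W, K ^ s := by
    refine Finset.sum_lt_sum_of_nonempty ⟨0, Finset.mem_univ _⟩ fun q _ => ?_
    rw [pow_mul]
    exact pow_lt_pow_left₀ (hcon q q.2) (sq_nonneg _) (by omega)
  rw [hE, Finset.sum_const, nsmul_eq_mul, Finset.card_univ] at hlt
  have hW : (0 : ℝ) < Fintype.card W := Nat.cast_pos.2 Fintype.card_pos
  have h1 : T < K ^ s := lt_of_mul_lt_mul_left hlt hW.le
  have h2 : K ^ s ≤ D * N ^ s / 4 := by
    rw [hK, mul_pow]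
    have h3 := mul_le_mul_of_nonneg_right (central_bound s hs) (show (0 : ℝ) ≤ N ^ s by positivity)
    calc ((s : ℝ) / Real.exp 1) ^ s * N ^ s ≤ _ := h3
      _ = D * N ^ s / 4 := by rw [hD]; ring
  linarith

end RMH
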