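import Pool.Agent.Helper71.HO.Poly

/-!
# The final bound from the count of null families (row E of stage 4)
-/

set_option autoImplicit false
set_option linter.unusedSectionVars false

open scoped BigOperators
open Classical Module

namespace RMH

/-- the statement of `null_count` -/
def NullCount : Prop :=
  ∀ (t a κ w m : ℕ) (_ : 4 * w < (a - t).choose t) (_ : 2 * w ≤ 2 ^ κ)
    (_ : 1 ≤ w) (V : Type) [AddCommGroup V] [Module (ZMod 2) V] [Fintype V]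
    (_ : Fintype.card V = 2 ^ m) (_ : 4 * κ ≤ m),
    ((Finset.univ.filter (fun x : Fin (2 * w) → V => Function.Injective x ∧ Null (t + 2) x)).card
      : ℝ) ≤ 4 * (m + 1) *
        (2 : ℝ) ^ ((m * w : ℝ) + 2 * (a + 4) * w - 2 * w * (m / 4 : ℕ) / (100 * κ))

lemma geom_le (x : ℝ) (hx : 0 ≤ x) (hx2 : x ≤ 1 / 2) (s : ℕ) :
    ∑ v ∈ Finset.Icc 1 s, x ^ v + 2 * x ^ (s + 1) ≤ 2 * x := by
  induction s with
  | zero => simp
  | succ s ih =>
    rw [Finset.sum_Icc_succ_top (by omega)]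
    have h1 : 0 ≤ x ^ (s + 1) := pow_nonneg hx _
    have h2 : x ^ (s + 1 + 1) = x ^ (s + 1) * x := pow_succ _ _
    rw [h2]
    nlinarith

/-- the correlation bound for given parameters -/
theorem large_of (hnc : NullCount) (t a κ s m : ℕ) (h1 : 4 * s < (a - t).choose t)
    (h2 : 2 * s ≤ 2 ^ κ) (h3 : 4 * κ ≤ m) (h4 : 6 ≤ s) (h5 : 4 * s ^ 2 ≤ 2 ^ m)
    (h6 : (64 : ℝ) * s * (m + 1) * 2 ^ (2 * (a + 4)) ≤ (2 : ℝ) ^ (((m / 4 : ℕ) : ℝ) / (50 * κ)))
    (F : (Fin m → ZMod 2) → ℝ) (hF : ∀ x, F x ^ 2 = 1) :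
    ∃ q ∈ PP (Fin m → ZMod 2) (t + 2), ((s : ℝ) / Real.exp 1) * 2 ^ m ≤ RMC.cor F q ^ 2 := by
  have hcard : Fintype.card (Fin m → ZMod 2) = 2 ^ m := by
    rw [Fintype.card_fun, ZMod.card, Fintype.card_fin]
  have hcardR : (Fintype.card (Fin m → ZMod 2) : ℝ) = 2 ^ m := by rw [hcard]; push_cast; rfl
  have hκ : 0 < κ := by
    rcases Nat.eq_zero_or_pos κ with rfl | h
    · rw [pow_zero] at h2
      omega
    · exact h
  have hκR : (0 : ℝ) < κ := Nat.cast_pos.2 hκ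
  have hsR : (6 : ℝ) ≤ s := by exact_mod_cast h4
  have hmR : (0 : ℝ) ≤ m := Nat.cast_nonneg m
  have h := exists_large_cor (PP (Fin m → ZMod 2) (t + 2)) F hF s h4 (by rw [hcard]; exact h5) ?_
  · rw [hcardR] at h
    exact h
  rw [hcardR]
  set E : ℝ := (2 : ℝ) ^ (((m / 4 : ℕ) : ℝ) / (50 * κ)) with hE
  have hEpos : 0 < E := Real.rpow_pos_of_pos (by norm_num) _
  set x : ℝ := 2 * s * 2 ^ (2 * (a + 4)) / E with hx
  have hx0 : 0 ≤ x := by positivity
  have hx1 : 32 * (m + 1) * x ≤ 1 := by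
    rw [hx, mul_div_assoc', div_le_one hEpos]
    refine le_trans (le_of_eq ?_) h6
    ring
  have hx2 : x ≤ 1 / 2 := by nlinarith
  have hterm : ∀ v ∈ Finset.Icc 1 s, (2 * s / 2 ^ m : ℝ) ^ v *
      (nullCard (PP (Fin m → ZMod 2) (t + 2)) (2 * v) : ℝ) ≤ 4 * (m + 1) * x ^ v := by
    intro v hv
    obtain ⟨hv1, hv2⟩ := Finset.mem_Icc.1 hv
    have e1 : (nullCard (PP (Fin m → ZMod 2) (t + 2)) (2 * v) : ℝ) ≤ 4 * (m + 1) *
        (2 : ℝ) ^ ((m * v : ℝ) + 2 * (a + 4) * v - 2 * v * (m / 4 : ℕ) / (100 * κ)) :=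
      (Nat.cast_le.2 (nullCard_le (t + 2) (2 * v))).trans
        (hnc t a κ v m (by omega) (by omega) hv1 (Fin m → ZMod 2) hcard h3)
    have e2 : (2 : ℝ) ^ ((m * v : ℝ) + 2 * (a + 4) * v - 2 * v * (m / 4 : ℕ) / (100 * κ)) =
        (2 ^ m) ^ v * (2 ^ (2 * (a + 4))) ^ v / E ^ v := by
      rw [Real.rpow_sub (by norm_num), Real.rpow_add (by norm_num)]
      congr 1
      · congr 1
        · rw [← Nat.cast_mul, Real.rpow_natCast, pow_mul]
        · rw [← pow_mul, ← Real.rpow_natCast]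
          congr 1
          push_cast
          ring
      · rw [hE, ← Real.rpow_natCast, ← Real.rpow_mul (by norm_num)]
        congr 1
        field_simp
        ring
    have e3 : (0 : ℝ) ≤ (2 * s / 2 ^ m : ℝ) ^ v := by positivity
    refine (mul_le_mul_of_nonneg_left e1 e3).trans (le_of_eq ?_)
    rw [e2, hx, div_pow, div_pow, mul_pow (2 * (s : ℝ)) (2 ^ (2 * (a + 4))) v]
    field_simp
  refine (Finset.sum_le_sum hterm).trans ?_
  rw [← Finset.mul_sum]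
  have hg := geom_le x hx0 hx2 s
  have hg2 : 0 ≤ 2 * x ^ (s + 1) := by positivity
  calc 4 * ((m : ℝ) + 1) * ∑ v ∈ Finset.Icc 1 s, x ^ v ≤ 4 * ((m : ℝ) + 1) * (2 * x) :=
        mul_le_mul_of_nonneg_left (by linarith) (by positivity)
    _ ≤ 1 / 4 := by linarith

/-- the distance form for given parameters -/
theorem close_of (hnc : NullCount) (t a κ s m : ℕ) (h1 : 4 * s < (a - t).choose t)
    (h2 : 2 * s ≤ 2 ^ κ) (h3 : 4 * κ ≤ m) (h4 : 6 ≤ s) (h5 : 4 * s ^ 2 ≤ 2 ^ m)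
    (h6 : (64 : ℝ) * s * (m + 1) * 2 ^ (2 * (a + 4)) ≤ (2 : ℝ) ^ (((m / 4 : ℕ) : ℝ) / (50 * κ)))
    (f : (Fin m → ZMod 2) → ZMod 2) :
    ∃ p : MvPolynomial (Fin m) (ZMod 2), p.totalDegree ≤ t + 2 ∧
      ((Finset.univ.filter (fun x => f x ≠ MvPolynomial.eval x p)).card : ℝ)
        ≤ 2 ^ m / 2 - Real.sqrt ((s : ℝ) / Real.exp 1) * Real.sqrt (2 ^ m) / 2 :=
  exists_close_PP (t + 2) s m f (large_of hnc t a κ s m h1 h2 h3 h4 h5 h6
    (fun x => RMC.chi (f x)) (fun x => by rw [pow_two, RMC.chi_sq]))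

/-! ### parameters -/

lemma choose_low (a t : ℕ) (h : 4 * t ≤ a) : ((a : ℝ) / 2) ^ t ≤ t.factorial * ((a - t).choose t : ℝ) := by
  have h1 := Nat.pow_sub_le_descFactorial (a - t) t
  rw [Nat.descFactorial_eq_factorial_mul_choose] at h1
  have h2 : ((a : ℝ) / 2) ^ t ≤ ((a - t + 1 - t : ℕ) : ℝ) ^ t := by
    refine pow_le_pow_left₀ (by positivity) ?_ t
    have h3 : a ≤ 2 * (a - t + 1 - t) := by omega
    have h4 : (a : ℝ) ≤ 2 * ((a - t + 1 - t : ℕ) : ℝ) := by exact_mod_cast h3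
    linarith
  refine h2.trans ?_
  exact_mod_cast h1

lemma choose_up (a t m : ℕ) (h : a ≤ m) : (a - t).choose t ≤ m ^ t := by
  have h1 : (a - t).choose t ≤ (a - t).descFactorial t := by
    rw [Nat.descFactorial_eq_factorial_mul_choose]
    exact Nat.le_mul_of_pos_left _ (Nat.factorial_pos t)
  refine h1.trans ((Nat.descFactorial_le_pow _ _).trans (Nat.pow_le_pow_left (by omega) t))


lemma log_sq_small (C : ℝ) (hC : 0 < C) : ∃ M : ℕ, ∀ m : ℕ, M ≤ m → C * Real.log m ^ 2 ≤ m := by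
  have h1 := (Real.isLittleO_pow_log_id_atTop (n := 2)).bound (inv_pos.2 hC)
  have h2 := (tendsto_natCast_atTop_atTop (R := ℝ)).eventually h1
  obtain ⟨M, hM⟩ := Filter.eventually_atTop.1 h2
  refine ⟨M, fun m hm => ?_⟩
  have h3 := hM m hm
  rw [Real.norm_of_nonneg (sq_nonneg _), id, Real.norm_of_nonneg (Nat.cast_nonneg m)] at h3
  calc C * Real.log m ^ 2 ≤ C * (C⁻¹ * m) := mul_le_mul_of_nonneg_left h3 hC.le
    _ = m := by rw [← mul_assoc, mul_inv_cancel₀ hC.ne', one_mul]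

/-- the choice of the parameters -/
theorem params (t : ℕ) (ht : 1 ≤ t) : ∃ c : ℝ, 0 < c ∧ ∃ M : ℕ, ∀ m : ℕ, M ≤ m →
    ∃ a κ s : ℕ, 4 * s < (a - t).choose t ∧ 2 * s ≤ 2 ^ κ ∧ 4 * κ ≤ m ∧ 6 ≤ s ∧ 4 * s ^ 2 ≤ 2 ^ m ∧
      (64 : ℝ) * s * (m + 1) * 2 ^ (2 * (a + 4)) ≤ (2 : ℝ) ^ (((m / 4 : ℕ) : ℝ) / (50 * κ)) ∧
      c * ((m : ℝ) / Real.log m) ^ t ≤ s := by
  have htR : (1 : ℝ) ≤ t := by exact_mod_cast ht
  have htf : (0 : ℝ) < t.factorial := Nat.cast_pos.2 (Nat.factorial_pos t)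
  obtain ⟨M, hM⟩ := log_sq_small (100000 * t ^ 2) (by positivity)
  refine ⟨1 / ((6400 * t) ^ t * (8 * t.factorial)), by positivity, max M 8, fun m hm => ?_⟩
  have hm8 : 8 ≤ m := (le_max_right _ _).trans hm
  have hmM := hM m ((le_max_left _ _).trans hm)
  have hm8R : (8 : ℝ) ≤ m := by exact_mod_cast hm8
  set Λ : ℝ := Real.log m with hΛ
  have hΛ2 : 2 ≤ Λ := by
    rw [hΛ, Real.le_log_iff_exp_le (by linarith)]
    have h1 : Real.exp 2 = Real.exp 1 ^ 2 := by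
      rw [← Real.exp_nat_mul]
      norm_num
    have h2 := Real.exp_one_lt_d9
    have h3 := Real.exp_pos 1
    rw [h1]
    nlinarith
  -- the parameter `κ`
  set κ : ℕ := t * (Nat.log 2 m + 1) with hκ
  have hκ1 : 1 ≤ κ := by
    rw [hκ]
    nlinarith [Nat.zero_le (Nat.log 2 m)]
  have hκR : (1 : ℝ) ≤ κ := by exact_mod_cast hκ1
  have hlog : ((Nat.log 2 m : ℕ) : ℝ) ≤ 3 / 2 * Λ := by
    have h1 : 2 ^ Nat.log 2 m ≤ m := Nat.pow_log_le_self 2 (by omega)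
    have h2 : (2 : ℝ) ^ Nat.log 2 m ≤ m := by exact_mod_cast h1
    have h3 := Real.log_le_log (by positivity) h2
    rw [Real.log_pow] at h3
    have h4 := Real.log_two_gt_d9
    have h5 : (0 : ℝ) ≤ (Nat.log 2 m : ℕ) := Nat.cast_nonneg _
    nlinarith
  have hκΛ : (κ : ℝ) ≤ 2 * t * Λ := by
    rw [hκ]
    push_cast
    nlinarith
  have hmκ : m + 1 ≤ 2 ^ (Nat.log 2 m + 1) := Nat.lt_pow_succ_log_self (by norm_num) m
  have hmt : m ^ t ≤ 2 ^ κ := by
    rw [hκ, mul_comm, pow_mul]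
    exact Nat.pow_le_pow_left (by omega) t
  have hm1κ : m + 1 ≤ 2 ^ κ := by
    refine hmκ.trans (Nat.pow_le_pow_right (by norm_num) ?_)
    rw [hκ]
    exact Nat.le_mul_of_pos_left _ (by omega)
  -- real inequalities
  have hbig : 100000 * (t : ℝ) ^ 2 * Λ ^ 2 ≤ m := hmM
  have hΛ0 : 0 < Λ := by linarith
  have e1 : 400 * (κ : ℝ) * (2 * κ + 13) + 8 ≤ m := by
    have h1 : (κ : ℝ) * κ ≤ (2 * t * Λ) * (2 * t * Λ) := mul_le_mul hκΛ hκΛ (by positivity) (by positivity)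
    have h2 : (t : ℝ) * Λ ≤ t ^ 2 * Λ ^ 2 := by
      have h3 : 1 ≤ t * Λ := by nlinarith
      calc (t : ℝ) * Λ = (t * Λ) * 1 := by ring
        _ ≤ (t * Λ) * (t * Λ) := mul_le_mul_of_nonneg_left h3 (by positivity)
        _ = t ^ 2 * Λ ^ 2 := by ring
    have h4 : 1 ≤ (t : ℝ) ^ 2 * Λ ^ 2 := by
      have h3 : 1 ≤ t * Λ := by nlinarith
      linarith
    nlinarith
  have e2 : 800 * (κ : ℝ) * (50 * t + 1) ≤ m := by
    have h3 : (t : ℝ) * (50 * t + 1) ≤ 51 * t ^ 2 := by nlinarith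
    have h4 : Λ ≤ Λ ^ 2 := by nlinarith
    calc 800 * (κ : ℝ) * (50 * t + 1) ≤ 800 * (2 * t * Λ) * (50 * t + 1) := by
          gcongr
      _ = 1600 * Λ * (t * (50 * t + 1)) := by ring
      _ ≤ 1600 * Λ ^ 2 * (51 * t ^ 2) := by
          gcongr
      _ ≤ 100000 * t ^ 2 * Λ ^ 2 := by nlinarith [show 0 ≤ (t : ℝ) ^ 2 * Λ ^ 2 by positivity]
      _ ≤ m := hbig
  -- the parameter `a`
  set a : ℕ := m / (800 * κ) with ha
  have ha1 : (a : ℝ) ≤ m / (800 * κ) := by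
    have := Nat.cast_div_le (α := ℝ) (m := m) (n := 800 * κ)
    rw [ha]
    refine this.trans (le_of_eq ?_)
    push_cast
    ring
  have ha2 : (m : ℝ) / (800 * κ) < a + 1 := by
    have h1 : m < (a + 1) * (800 * κ) := by
      have := Nat.lt_mul_div_succ m (show 0 < 800 * κ by omega)
      rw [ha, mul_comm]
      exact this
    rw [div_lt_iff₀ (by positivity)]
    exact_mod_cast h1
  have ha50 : 50 * t ≤ a := by
    rw [ha, Nat.le_div_iff_mul_le (by omega)]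
    have h1 : (50 * (t : ℝ)) * (800 * κ) ≤ m := by nlinarith
    exact_mod_cast h1
  have hat : a ≤ m := by
    rw [ha]
    exact Nat.div_le_self _ _
  -- binomial coefficient
  set B : ℕ := (a - t).choose t with hB
  have hB1 := choose_low a t (by omega)
  have hB2 := choose_up a t m hat
  have haR : (50 * t : ℝ) ≤ a := by exact_mod_cast ha50
  have hB25 : (25 : ℝ) ≤ B := by
    have h1 : (25 * (t : ℝ)) ^ t ≤ ((a : ℝ) / 2) ^ t := pow_le_pow_left₀ (by positivity) (by linarith) t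
    have h2 : (t.factorial : ℝ) ≤ (t : ℝ) ^ t := by exact_mod_cast Nat.factorial_le_pow t
    have h3 : (25 : ℝ) ≤ 25 ^ t := le_self_pow₀ (by norm_num) (by omega)
    have h4 : (25 : ℝ) * t.factorial ≤ (25 * (t : ℝ)) ^ t := by
      rw [mul_pow]
      exact mul_le_mul h3 h2 htf.le (by positivity)
    have h5 : (t.factorial : ℝ) * 25 ≤ t.factorial * B := by linarith
    exact le_of_mul_le_mul_left h5 htf
  have hB25' : 25 ≤ B := by exact_mod_cast hB25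
  -- the parameter `s`
  set s : ℕ := (B - 1) / 4 with hs
  have hs1 : 4 * s < B := by omega
  have hs6 : 6 ≤ s := by omega
  have hsκ : 2 * s ≤ 2 ^ κ := by omega
  have hs8 : B ≤ 8 * s := by omega
  have h4κ : 4 * κ ≤ m := by
    have : (4 : ℝ) * κ ≤ m := by nlinarith
    exact_mod_cast this
  refine ⟨a, κ, s, hs1, hsκ, h4κ, hs6, ?_, ?_, ?_⟩
  · have h1 : (2 * s) * (2 * s) ≤ 2 ^ κ * 2 ^ κ := Nat.mul_le_mul hsκ hsκ
    have h2 : 2 ^ κ * 2 ^ κ ≤ 2 ^ m := by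
      rw [← pow_add]
      exact Nat.pow_le_pow_right (by norm_num) (by omega)
    nlinarith
  · have h1 : (64 : ℝ) * s * (m + 1) * 2 ^ (2 * (a + 4)) ≤ 2 ^ (2 * κ + 13 + 2 * a) := by
      have h2 : (2 : ℝ) * s ≤ 2 ^ κ := by exact_mod_cast hsκ
      have h3 : (m : ℝ) + 1 ≤ 2 ^ κ := by exact_mod_cast hm1κ
      have h4 : (2 : ℝ) ^ (2 * κ + 13 + 2 * a) = 32 * (2 ^ κ * 2 ^ κ) * 2 ^ (2 * (a + 4)) := by
        rw [← pow_add, show (32 : ℝ) = 2 ^ 5 by norm_num, ← pow_add, ← pow_add]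
        congr 1
        ring
      rw [h4]
      refine mul_le_mul_of_nonneg_right ?_ (by positivity)
      calc (64 : ℝ) * s * (m + 1) = 32 * ((2 * s) * (m + 1)) := by ring
        _ ≤ 32 * (2 ^ κ * 2 ^ κ) := by
            refine mul_le_mul_of_nonneg_left ?_ (by norm_num)
            exact mul_le_mul h2 h3 (by positivity) (by positivity)
    refine h1.trans ?_
    rw [← Real.rpow_natCast]
    refine Real.rpow_le_rpow_of_exponent_le (by norm_num) ?_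
    push_cast
    have h2 : ((m : ℝ) - 4) / 4 ≤ ((m / 4 : ℕ) : ℝ) := by
      have h3 : m ≤ 4 * (m / 4) + 4 := by omega
      have h4 : (m : ℝ) ≤ 4 * ((m / 4 : ℕ) : ℝ) + 4 := by exact_mod_cast h3
      linarith
    rw [le_div_iff₀ (by positivity)]
    refine le_trans ?_ h2
    have h5 : (a : ℝ) * (800 * κ) ≤ m := by
      rw [← le_div_iff₀ (by positivity)]
      exact ha1
    nlinarith
  · have h1 : (m : ℝ) / Λ / (6400 * t) ≤ a / 2 := by
      have h2 : (m : ℝ) / (800 * κ) ≤ 2 * a := by linarith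
      have h3 : (m : ℝ) / (800 * (2 * t * Λ)) ≤ m / (800 * κ) := by
        gcongr
      have h4 : (m : ℝ) / Λ / (6400 * t) = (m / (800 * (2 * t * Λ))) / 4 := by
        field_simp
        ring
      rw [h4]
      linarith
    have h2 : ((m : ℝ) / Λ / (6400 * t)) ^ t ≤ t.factorial * B :=
      (pow_le_pow_left₀ (by positivity) h1 t).trans hB1
    have h3 : (B : ℝ) ≤ 8 * s := by exact_mod_cast hs8
    have h4 : ((m : ℝ) / Λ / (6400 * t)) ^ t ≤ t.factorial * (8 * s) :=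
      h2.trans (mul_le_mul_of_nonneg_left h3 htf.le)
    rw [div_pow, div_le_iff₀ (by positivity)] at h4
    rw [one_div, inv_mul_le_iff₀ (by positivity)]
    linarith

/-- **higher orders** -/
theorem high_order_of (hnc : NullCount) (t : ℕ) (ht : 1 ≤ t) : ∃ c : ℝ, 0 < c ∧ ∃ M : ℕ, ∀ m : ℕ, M ≤ m →
    ∀ f : (Fin m → ZMod 2) → ZMod 2, ∃ p : MvPolynomial (Fin m) (ZMod 2), p.totalDegree ≤ t + 2 ∧
      ((Finset.univ.filter (fun x => f x ≠ MvPolynomial.eval x p)).card : ℝ)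
        ≤ 2 ^ m / 2 - c * ((m : ℝ) / Real.log m) ^ ((t : ℝ) / 2) * Real.sqrt (2 ^ m) := by
  obtain ⟨c, hc, M, hM⟩ := params t ht
  refine ⟨Real.sqrt (c / 3) / 2, by positivity, max M 2, fun m hm f => ?_⟩
  obtain ⟨a, κ, s, h1, h2, h3, h4, h5, h6, h7⟩ := hM m ((le_max_left _ _).trans hm)
  obtain ⟨p, hp, hd⟩ := close_of hnc t a κ s m h1 h2 h3 h4 h5 h6 f
  refine ⟨p, hp, hd.trans ?_⟩
  have hm2 : (2 : ℝ) ≤ m := by exact_mod_cast (le_max_right _ _).trans hm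
  have hlog : 0 < Real.log m := Real.log_pos (by linarith)
  have hx0 : 0 ≤ (m : ℝ) / Real.log m := by positivity
  have e1 : ((m : ℝ) / Real.log m) ^ ((t : ℝ) / 2) = Real.sqrt (((m : ℝ) / Real.log m) ^ t) := by
    rw [Real.sqrt_eq_rpow, ← Real.rpow_natCast, ← Real.rpow_mul hx0]
    congr 1
    ring
  have e2 : Real.sqrt (c / 3) * Real.sqrt (((m : ℝ) / Real.log m) ^ t) ≤ Real.sqrt ((s : ℝ) / Real.exp 1) := by
    rw [← Real.sqrt_mul (by positivity)]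
    refine Real.sqrt_le_sqrt ?_
    have he : Real.exp 1 ≤ 3 := by
      have := Real.exp_one_lt_d9
      linarith
    have hepos := Real.exp_pos 1
    calc c / 3 * ((m : ℝ) / Real.log m) ^ t = c * ((m : ℝ) / Real.log m) ^ t / 3 := by ring
      _ ≤ s / 3 := by gcongr
      _ ≤ (s : ℝ) / Real.exp 1 := by gcongr
  rw [e1]
  have h8 := mul_le_mul_of_nonneg_right e2 (Real.sqrt_nonneg ((2 : ℝ) ^ m))
  linarith

end RMH
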