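import Pool.Agent.Helper71.HO.MomE
import Pool.Agent.Helper71.HO.Hilb
import Pool.Agent.Helper71.RMC.Final

/-!
# Polynomials and the distance form (row E of stage 4)
-/

set_option autoImplicit false
set_option linter.unusedSectionVars false

open scoped BigOperators
open Classical Module

namespace RMH

/-- functions given by polynomials of degree at most `r` -/
def polyFun (m r : ℕ) : Submodule (ZMod 2) ((Fin m → ZMod 2) → ZMod 2) where
  carrier := {q | ∃ p : MvPolynomial (Fin m) (ZMod 2), p.totalDegree ≤ r ∧ ∀ x, MvPolynomial.eval x p = q x}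
  add_mem' := by
    rintro a b ⟨p, hp, hp'⟩ ⟨q, hq, hq'⟩
    refine ⟨p + q, (MvPolynomial.totalDegree_add _ _).trans (max_le hp hq), fun x => ?_⟩
    rw [map_add, hp', hq']
    rfl
  zero_mem' := ⟨0, by rw [MvPolynomial.totalDegree_zero]; exact Nat.zero_le _, fun x => by rw [map_zero]; rfl⟩
  smul_mem' := by
    rintro c a ⟨p, hp, hp'⟩
    refine ⟨MvPolynomial.C c * p, ?_, fun x => ?_⟩
    · refine (MvPolynomial.totalDegree_mul _ _).trans ?_
      rw [MvPolynomial.totalDegree_C, zero_add]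
      exact hp
    · rw [map_mul, hp', MvPolynomial.eval_C]
      rfl

lemma mem_polyFun {m r : ℕ} {q : (Fin m → ZMod 2) → ZMod 2} :
    q ∈ polyFun m r ↔ ∃ p : MvPolynomial (Fin m) (ZMod 2), p.totalDegree ≤ r ∧ ∀ x, MvPolynomial.eval x p = q x :=
  Iff.rfl

lemma Aff_le (m : ℕ) : Aff (Fin m → ZMod 2) ≤ polyFun m 1 := by
  unfold Aff
  rw [Submodule.span_le]
  intro f hf
  rcases hf with rfl | ⟨a, rfl⟩
  · exact ⟨1, by rw [MvPolynomial.totalDegree_one]; exact Nat.zero_le _, fun x => by rw [map_one]; rfl⟩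
  · exact RMC.dual_poly a

lemma PP_le (m r : ℕ) : PP (Fin m → ZMod 2) r ≤ polyFun m r := by
  unfold PP
  induction r with
  | zero =>
    rw [pow_zero, Submodule.one_le]
    exact ⟨1, by rw [MvPolynomial.totalDegree_one], fun x => by rw [map_one]; rfl⟩
  | succ r ih =>
    rw [pow_succ, Submodule.mul_le]
    intro a ha b hb
    obtain ⟨p, hp, hp'⟩ := ih ha
    obtain ⟨q, hq, hq'⟩ := Aff_le m hb
    refine ⟨p * q, (MvPolynomial.totalDegree_mul _ _).trans (Nat.add_le_add hp hq), fun x => ?_⟩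
    rw [map_mul, hp', hq']
    rfl

/-- (E1) -/
theorem exists_poly {m : ℕ} (r : ℕ) {q : (Fin m → ZMod 2) → ZMod 2}
    (hq : q ∈ PP (Fin m → ZMod 2) r) :
    ∃ p : MvPolynomial (Fin m) (ZMod 2), p.totalDegree ≤ r ∧ ∀ x, MvPolynomial.eval x p = q x :=
  PP_le m r hq

lemma one_mem_PP {V : Type} [AddCommGroup V] [Module (ZMod 2) V] (r : ℕ) : (1 : V → ZMod 2) ∈ PP V r := by
  unfold PP
  have h : (1 : V → ZMod 2) ∈ Aff V := Submodule.subset_span (Set.mem_insert _ _)
  have h2 := Submodule.pow_mem_pow (Aff V) h r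
  rwa [one_pow] at h2

/-- a large correlation gives a close polynomial -/
theorem exists_close_PP (r s m : ℕ) (f : (Fin m → ZMod 2) → ZMod 2)
    (h : ∃ q ∈ PP (Fin m → ZMod 2) r, ((s : ℝ) / Real.exp 1) * 2 ^ m ≤ RMC.cor (fun x => RMC.chi (f x)) q ^ 2) :
    ∃ p : MvPolynomial (Fin m) (ZMod 2), p.totalDegree ≤ r ∧
      ((Finset.univ.filter (fun x => f x ≠ MvPolynomial.eval x p)).card : ℝ)
        ≤ 2 ^ m / 2 - Real.sqrt ((s : ℝ) / Real.exp 1) * Real.sqrt (2 ^ m) / 2 := by
  obtain ⟨q, hq, hcor⟩ := h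
  have hcard : Fintype.card (Fin m → ZMod 2) = 2 ^ m := by
    rw [Fintype.card_fun, ZMod.card, Fintype.card_fin]
  have hcardR : (Fintype.card (Fin m → ZMod 2) : ℝ) = 2 ^ m := by rw [hcard]; push_cast; rfl
  have hsq : Real.sqrt ((s : ℝ) / Real.exp 1) * Real.sqrt (2 ^ m) ≤ |RMC.cor (fun x => RMC.chi (f x)) q| := by
    rw [← Real.sqrt_mul (by positivity)]
    exact (Real.sqrt_le_sqrt hcor).trans (by rw [Real.sqrt_sq_eq_abs])
  obtain ⟨q', hq', hc'⟩ : ∃ q' ∈ PP (Fin m → ZMod 2) r,
      RMC.cor (fun x => RMC.chi (f x)) q' = |RMC.cor (fun x => RMC.chi (f x)) q| := by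
    rcases le_total 0 (RMC.cor (fun x => RMC.chi (f x)) q) with h | h
    · exact ⟨q, hq, (abs_of_nonneg h).symm⟩
    · refine ⟨q + 1, (PP _ r).add_mem hq (one_mem_PP r), ?_⟩
      rw [abs_of_nonpos h]
      unfold RMC.cor
      rw [← Finset.sum_neg_distrib]
      refine Finset.sum_congr rfl (fun x _ => ?_)
      rw [Pi.add_apply, RMC.chi_add, Pi.one_apply, RMC.chi_one]; ring
  obtain ⟨p, hp, hp'⟩ := exists_poly r hq'
  refine ⟨p, hp, ?_⟩
  have h1 := RMC.cor_eq_dist f q'
  rw [hcardR] at h1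
  have h2 : RMC.cor (fun x => RMC.chi (f x)) q' = ∑ x, RMC.chi (f x) * RMC.chi (q' x) := rfl
  rw [← h2, hc'] at h1
  simp only [hp']
  linarith

/-- null sets are counted by injective null families -/
lemma nullCard_le {V : Type} [AddCommGroup V] [Module (ZMod 2) V] [Fintype V] (r n : ℕ) :
    nullCard (PP V r) n ≤
      (Finset.univ.filter (fun x : Fin n → V => Function.Injective x ∧ Null r x)).card := by
  unfold nullCard
  refine Finset.card_le_card_of_injOn
    (fun Y : Finset V => if h : Y.card = n then fun i : Fin n => ((Y.equivFinOfCardEq h).symm i : V) else fun _ => 0) ?_ ?_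
  · intro Y hY
    obtain ⟨h1, h2⟩ := Finset.mem_filter.1 hY
    have h3 : Y.card = n := (Finset.mem_powersetCard.1 h1).2
    rw [Finset.mem_coe, Finset.mem_filter]
    refine ⟨Finset.mem_univ _, ?_⟩
    simp only [dif_pos h3]
    constructor
    · intro i j hij
      exact (Y.equivFinOfCardEq h3).symm.injective (Subtype.ext hij)
    · intro p hp
      rw [← h2 p hp, ← Finset.sum_coe_sort Y p]
      exact (Y.equivFinOfCardEq h3).symm.sum_comp (fun y => p y)
  · intro Y hY Z hZ hYZ
    have h3 : Y.card = n := (Finset.mem_powersetCard.1 (Finset.mem_filter.1 hY).1).2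
    have h4 : Z.card = n := (Finset.mem_powersetCard.1 (Finset.mem_filter.1 hZ).1).2
    have h5 : (fun i : Fin n => ((Y.equivFinOfCardEq h3).symm i : V)) =
        fun i : Fin n => ((Z.equivFinOfCardEq h4).symm i : V) := by
      have h6 := hYZ
      simp only [dif_pos h3, dif_pos h4] at h6
      exact h6
    ext v
    constructor
    · intro hv
      have h7 := congrFun h5 (Y.equivFinOfCardEq h3 ⟨v, hv⟩)
      simp only [Equiv.symm_apply_apply] at h7
      rw [h7]
      exact Subtype.coe_prop _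
    · intro hv
      have h7 := congrFun h5 (Z.equivFinOfCardEq h4 ⟨v, hv⟩)
      simp only [Equiv.symm_apply_apply] at h7
      rw [← h7]
      exact Subtype.coe_prop _

end RMH
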